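import Pool.Agent.Y196.JX.Stm3

set_option autoImplicit false

/-! JX3-DIG: the inequality of Gibbs and sums over digits. -/

namespace Pool.Agent.Y465.JX

open Finset H942JM Filter Topology Pool.Agent.Y196.JX

theorem gibbs : S_GIBBS := by
  intro P Q hP hsum hQ hQ1
  have h1 : ∀ x ∈ P.support, P x * Real.log (1 / P x) ≤
      P x * Real.log (1 / Q x) + (Q x - P x) := by
    intro x hx
    have hPx : 0 < P x := lt_of_le_of_ne (hP x) (Finsupp.mem_support_iff.1 hx).symm
    have hQx := hQ x hx
    have h2 := Real.log_le_sub_one_of_pos (div_pos hQx hPx)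
    rw [Real.log_div hQx.ne' hPx.ne'] at h2
    have h3 := mul_le_mul_of_nonneg_left h2 hPx.le
    have h4 : P x * (Q x / P x - 1) = Q x - P x := by
      field_simp
    rw [h4] at h3
    rw [one_div, one_div, Real.log_inv, Real.log_inv]
    linarith
  have h2 := Finset.sum_le_sum h1
  rw [Finset.sum_add_distrib, Finset.sum_sub_distrib] at h2
  have h3 : ∑ x ∈ P.support, P x = 1 := hsum
  rw [h3] at h2
  have h4 : entropy P = ∑ x ∈ P.support, P x * Real.log (1 / P x) := rfl
  rw [h4]
  linarith

theorem dig : S_DIG := by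
  intro A l w hA
  induction l with
  | zero => simp
  | succ l ih =>
    have hAl : 0 < A ^ l := pow_pos hA l
    have h1 : ∑ r ∈ range (A ^ (l + 1)), ∏ j ∈ range (l + 1), w j (r / A ^ j % A) =
        ∑ q ∈ range (A ^ l) ×ˢ range A,
          ∏ j ∈ range (l + 1), w j ((q.1 + A ^ l * q.2) / A ^ j % A) := by
      symm
      refine Finset.sum_nbij' (fun q => q.1 + A ^ l * q.2) (fun r => (r % A ^ l, r / A ^ l))
        ?_ ?_ ?_ ?_ ?_
      · rintro ⟨a, b⟩ hq
        rw [Finset.mem_product, Finset.mem_range, Finset.mem_range] at hq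
        rw [Finset.mem_range, pow_succ]
        have h2 : A ^ l * (b + 1) ≤ A ^ l * A := Nat.mul_le_mul_left _ hq.2
        have h3 := hq.1
        simp only at h3 h2 ⊢
        rw [mul_add, mul_one] at h2
        omega
      · intro r hr
        rw [Finset.mem_range, pow_succ] at hr
        rw [Finset.mem_product, Finset.mem_range, Finset.mem_range]
        exact ⟨Nat.mod_lt _ hAl, Nat.div_lt_of_lt_mul hr⟩
      · rintro ⟨a, b⟩ hq
        rw [Finset.mem_product, Finset.mem_range, Finset.mem_range] at hq
        have h3 : a < A ^ l := hq.1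
        simp only [Nat.add_mul_mod_self_left, Nat.add_mul_div_left _ _ hAl, Nat.mod_eq_of_lt h3,
          Nat.div_eq_of_lt h3, zero_add]
      · intro r hr
        exact Nat.mod_add_div r (A ^ l)
      · intro q hq
        rfl
    rw [h1, Finset.sum_product]
    have h2 : ∀ a ∈ range (A ^ l), ∀ b ∈ range A,
        ∏ j ∈ range (l + 1), w j ((a + A ^ l * b) / A ^ j % A) =
        (∏ j ∈ range l, w j (a / A ^ j % A)) * w l b := by
      intro a ha b hb
      rw [Finset.mem_range] at ha hb
      rw [Finset.prod_range_succ]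
      congr 1
      · refine Finset.prod_congr rfl fun j hj => ?_
        rw [Finset.mem_range] at hj
        have e1 : A ^ l * b = A ^ j * (A * (A ^ (l - j - 1) * b)) := by
          have e2 : A ^ l = A ^ j * (A * A ^ (l - j - 1)) := by
            rw [← pow_succ', ← pow_add]
            congr 1
            omega
          rw [e2]
          ring
        rw [e1, Nat.add_mul_div_left _ _ (pow_pos hA j), Nat.add_mul_mod_self_left]
      · rw [Nat.add_mul_div_left _ _ hAl, Nat.div_eq_of_lt ha, zero_add, Nat.mod_eq_of_lt hb]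
    rw [Finset.sum_congr rfl fun a ha => Finset.sum_congr rfl fun b hb => h2 a ha b hb,
      Finset.prod_range_succ, ← ih, Finset.sum_mul_sum]

end Pool.Agent.Y465.JX
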